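import Pool.Agent.H.MP_b2838e_lc.K.Defs

/-!
# Module Cp: a computable bound

Proof. `h n = g 0 + ... + g n + n` (recursion: `h 0 = g 0`, `h (n + 1) = h n + g (n + 1) + 1`) is
computable (`Computable.nat_rec`), monotone, `g n ≤ h n`, `n ≤ h n`. `G i = h^[i * i] (i * i)` is
computable (`Computable.nat_rec` again). The map `i ↦ h^[i] i` is monotone, since `n ≤ h n` and `h` is
monotone.
-/

namespace Pool.Agent.DK

open Pool.Agent.DR Pool.Agent.DB

theorem red_mono {g h : ℕ → ℕ} (hg : Red g) (hgh : ∀ n, g n ≤ h n) : Red h := by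
  intro l c hc
  obtain ⟨x, hx, ⟨i₀, h1⟩, h2⟩ := hg l c hc
  refine ⟨x, hx, ⟨i₀, fun i hi => ?_⟩, h2⟩
  obtain ⟨n, hn, hn'⟩ := h1 i hi
  exact ⟨n, hn.trans (hgh i), hn'⟩

/-- The sums `g 0 + ... + g n + n`. -/
private def Cp_h (g : ℕ → ℕ) (n : ℕ) : ℕ :=
  Nat.rec (motive := fun _ => ℕ) (g 0) (fun y IH => IH + g (y + 1) + 1) n

private theorem Cp_succ (g : ℕ → ℕ) (n : ℕ) : Cp_h g (n + 1) = Cp_h g n + g (n + 1) + 1 := rfl

private theorem Cp_comp {g : ℕ → ℕ} (hg : Computable g) : Computable (Cp_h g) := by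
  have h1 : Computable₂ (fun (_ : ℕ) (p : ℕ × ℕ) => p.2 + g (p.1 + 1) + 1) := by
    have h2 : Computable (fun q : ℕ × (ℕ × ℕ) => q.2.2) := Computable.snd.comp Computable.snd
    have h3 : Computable (fun q : ℕ × (ℕ × ℕ) => q.2.1) := Computable.fst.comp Computable.snd
    have h4 : Computable (fun q : ℕ × (ℕ × ℕ) => g (q.2.1 + 1)) :=
      hg.comp (Computable.succ.comp h3)
    exact Computable.succ.comp (Primrec.nat_add.to_comp.comp h2 h4)
  exact Computable.nat_rec (f := fun n : ℕ => n) (g := fun _ : ℕ => g 0)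
    (h := fun (_ : ℕ) (p : ℕ × ℕ) => p.2 + g (p.1 + 1) + 1) Computable.id (Computable.const _) h1

private theorem Cp_iter {h : ℕ → ℕ} (hh : Computable h) :
    Computable (fun i => h^[i * i] (i * i)) := by
  have h0 : Computable (fun i : ℕ => i * i) :=
    Primrec.nat_mul.to_comp.comp Computable.id Computable.id
  have h1 : Computable₂ (fun (_ : ℕ) (p : ℕ × ℕ) => h p.2) :=
    hh.comp (Computable.snd.comp Computable.snd)
  refine (Computable.nat_rec (f := fun i : ℕ => i * i) (g := fun i : ℕ => i * i)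
    (h := fun (_ : ℕ) (p : ℕ × ℕ) => h p.2) h0 h0 h1).of_eq fun i => ?_
  show Nat.rec (motive := fun _ => ℕ) (i * i) (fun _ IH => h IH) (i * i) = h^[i * i] (i * i)
  have key : ∀ m x : ℕ, Nat.rec (motive := fun _ => ℕ) x (fun _ IH => h IH) m = h^[m] x := by
    intro m x
    induction m with
    | zero => rfl
    | succ m ih =>
      rw [Function.iterate_succ_apply']
      exact congrArg h ih
  exact key _ _

theorem comp_bound {g : ℕ → ℕ} (hg : Computable g) : ∃ h : ℕ → ℕ, Monotone h ∧ (∀ n, g n ≤ h n) ∧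
    (∀ n, n ≤ h n) ∧ Monotone (fun i => h^[i] i) ∧ Computable (fun i => h^[i * i] (i * i)) := by
  have hmono : Monotone (Cp_h g) := by
    refine monotone_nat_of_le_succ fun n => ?_
    rw [Cp_succ]
    omega
  have hle : ∀ n, n ≤ Cp_h g n := by
    intro n
    induction n with
    | zero => exact Nat.zero_le _
    | succ n ih =>
      rw [Cp_succ]
      omega
  refine ⟨Cp_h g, hmono, ?_, hle, ?_, Cp_iter (Cp_comp hg)⟩
  · intro n
    cases n with
    | zero => exact le_refl _
    | succ n =>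
      rw [Cp_succ]
      omega
  · refine monotone_nat_of_le_succ fun n => ?_
    show (Cp_h g)^[n] n ≤ (Cp_h g)^[n + 1] (n + 1)
    rw [Function.iterate_succ_apply']
    exact (hle _).trans (hmono (hmono.iterate n (Nat.le_succ n)))

end Pool.Agent.DK
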