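import Pool.Agent.H.MP_b2838e_lc.K.Defs

/-!
# Growth bound for all numbers of pieces
-/

namespace Pool.Agent.DK

open Pool.Agent.DR Pool.Agent.DB

/-- Growth bound of the passage from Borel to reduced colourings. -/
def RedK (g : ℕ → ℕ) : Prop :=
  ∀ (k l : ℕ) (c : (ℕ → ℕ) → Fin l), Bor k c →
    ∃ x, InfPart x ∧ (∃ i₀, ∀ i ≥ i₀, ∃ n ≤ g i, x n = i) ∧
      ∀ y z t, KPart k y → KPart k z → Coarser y x → Coarser z x → (∀ n ≤ t, y n = z n) →
        (∀ i < k, ∃ n ≤ t, y n = i) → c y = c z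

end Pool.Agent.DK
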