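import Pool.Agent.H.MP_b2838e_lc.Def
import Pool.Agent.H.MP_b2838e_lc.B.Bd

/-!
# Definitions for the simultaneous version (two pieces, countably many colourings)
-/

namespace Pool.Agent.DK

open Pool.Agent.DR Pool.Agent.DB

/-- Growth bound of the passage from Borel to reduced colourings of the partitions into two
pieces. -/
def Red (g : ℕ → ℕ) : Prop :=
  ∀ (l : ℕ) (c : (ℕ → ℕ) → Fin l), Bor 2 c →
    ∃ x, InfPart x ∧ (∃ i₀, ∀ i ≥ i₀, ∃ n ≤ g i, x n = i) ∧
      ∀ y z t, KPart 2 y → KPart 2 z → Coarser y x → Coarser z x → (∀ n ≤ t, y n = z n) →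
        (∀ i < 2, ∃ n ≤ t, y n = i) → c y = c z

/-- `D` has upper density at least `1 / q`. -/
def Dn (D : Set ℕ) (q : ℕ) : Prop :=
  ∀ N, ∃ M ≥ N, M ≤ q * (D ∩ Set.Iio M).ncard

end Pool.Agent.DK
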