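import Pool.Agent.H.MP_b2838e_lc.K.Defs

/-!
# Module Dns: one class has positive upper density

Proof. Otherwise for each `j` there is `N j` with `q * l * (D_j ∩ [0, M)).ncard < M` for all
`M ≥ N j`, `D_j = {i ∈ D | f i = j}`. Take `M ≥` all `N j` with `M ≤ q * (D ∩ [0, M)).ncard`; as
`(D ∩ [0, M)).ncard` is at most the sum of the `(D_j ∩ [0, M)).ncard`, summing over `j`:
`l * M ≤ l * q * (D ∩ [0, M)).ncard < l * M` (`l ≥ 1` since `f 0 : Fin l`), contradiction.
-/

namespace Pool.Agent.DK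

theorem dn_split {D : Set ℕ} {q : ℕ} (hD : Dn D q) {l : ℕ} (f : ℕ → Fin l) :
    ∃ j, Dn {i | i ∈ D ∧ f i = j} (q * l) := by
  classical
  by_contra hcon
  push Not at hcon
  have h1 : ∀ j, ∃ N, ∀ M ≥ N,
      q * l * ({i | i ∈ D ∧ f i = j} ∩ Set.Iio M).ncard < M := by
    intro j
    have h := hcon j
    unfold Dn at h
    push Not at h
    exact h
  choose N hN using h1
  obtain ⟨M, hM, hMD⟩ := hD (∑ j, N j)
  have h2 : (D ∩ Set.Iio M).ncard = ∑ j, ({i | i ∈ D ∧ f i = j} ∩ Set.Iio M).ncard := by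
    have e1 : D ∩ Set.Iio M = ↑((Finset.range M).filter fun i => i ∈ D) := by
      ext i
      simp [and_comm]
    have e2 : ∀ j, {i | i ∈ D ∧ f i = j} ∩ Set.Iio M =
        ↑(((Finset.range M).filter fun i => i ∈ D).filter fun i => f i = j) := by
      intro j
      ext i
      simp only [Set.mem_inter_iff, Set.mem_ofPred_eq, Set.mem_Iio, Finset.coe_filter,
        Finset.mem_filter, Finset.mem_range]
      tauto
    rw [e1, Set.ncard_coe_finset,
      Finset.card_eq_sum_card_fiberwise (f := f) (t := Finset.univ)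
        (fun _ _ => Finset.mem_coe.2 (Finset.mem_univ _))]
    exact Finset.sum_congr rfl fun j _ => by rw [e2 j, Set.ncard_coe_finset]
  have h3 : ∑ j : Fin l, q * l * ({i | i ∈ D ∧ f i = j} ∩ Set.Iio M).ncard <
      ∑ _j : Fin l, M := by
    apply Finset.sum_lt_sum_of_nonempty
    · exact ⟨f 0, Finset.mem_univ _⟩
    · intro j _
      exact hN j M (le_trans
        (Finset.single_le_sum (fun _ _ => Nat.zero_le _) (Finset.mem_univ j)) hM)
  rw [← Finset.mul_sum, ← h2, Finset.sum_const, Finset.card_univ, Fintype.card_fin,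
    smul_eq_mul] at h3
  have h4 : l * M ≤ l * (q * (D ∩ Set.Iio M).ncard) := Nat.mul_le_mul_left l hMD
  have h5 : q * l * (D ∩ Set.Iio M).ncard = l * (q * (D ∩ Set.Iio M).ncard) := by ring
  rw [h5] at h3
  exact absurd h4 (not_le.2 h3)

end Pool.Agent.DK
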