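import Pool.Agent.H.MP_b2838e_lc.K.Defs

/-!
# Module Mg: merging pieces

Proof. `C` is infinite (second clause). Let `x' n = 0` if `x n ∉ C` and
`x' n = Nat.count (· ∈ C) (x n) + 1` if `x n ∈ C` (`open Classical`). `InfPart x'`: the values at the
elements of the pieces `c_0 < c_1 < ...` (`C = {c_0, c_1, ...}`, `c_i = Nat.nth (· ∈ C) i`) are
`1, 2, ...`; `0` is taken at `0` (`x 0 = 0 ∉ C`); if `i < x' n`, `i ≥ 1`, then the piece
`c_{i-1} < x n` begins before `n`. Bound: given `N`, take `M` with `M ≥ G`-independent large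
(`M ≥ (N + 1) * (N + 1)`), `i = (C ∩ Set.Iio M).ncard ≥ N` (as `M ≤ i * i`), `c_{i-1} < M ≤ i * i`, so
there is `p ≤ G c_{i-1} ≤ G (i * i)` with `x p = c_{i-1}`, `x' p = i`.
-/

namespace Pool.Agent.DK

open Pool.Agent.DR Pool.Agent.DB

theorem merge {G : ℕ → ℕ} (hG : Monotone G) (x : ℕ → ℕ) (hx : InfPart x)
    (hb : ∀ i, ∃ p ≤ G i, x p = i) (C : Set ℕ) (h1 : ∀ i ∈ C, 1 ≤ i)
    (hC : ∀ N, ∃ M ≥ N, M ≤ (C ∩ Set.Iio M).ncard * (C ∩ Set.Iio M).ncard) :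
    ∃ x', InfPart x' ∧ Coarser x' x ∧ (∀ n, x' n ≠ 0 → x n ∈ C) ∧
      ∀ N, ∃ i ≥ N, ∃ p ≤ G (i * i), x' p = i := by
  classical
  have hcnt : ∀ M, (C ∩ Set.Iio M).ncard = Nat.count (· ∈ C) M := by
    intro M
    rw [Nat.count_eq_card_filter_range, ← Set.ncard_coe_finset]
    congr 1
    ext a
    simp [and_comm]
  have hinf : (setOf (· ∈ C)).Infinite := by
    intro hfin
    have hfin' : C.Finite := hfin
    obtain ⟨M, hM, hM'⟩ := hC (C.ncard * C.ncard + 1)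
    have h2 : (C ∩ Set.Iio M).ncard ≤ C.ncard :=
      Set.ncard_le_ncard Set.inter_subset_left hfin'
    have h3 := Nat.mul_le_mul h2 h2
    omega
  have hmem : ∀ i, Nat.nth (· ∈ C) i ∈ C := fun i => Nat.nth_mem_of_infinite hinf i
  have hcn : ∀ i, Nat.count (· ∈ C) (Nat.nth (· ∈ C) i) = i := fun i =>
    Nat.count_nth_of_infinite hinf i
  have hx0 : x 0 = 0 := by
    by_contra h2
    obtain ⟨m, hm, -⟩ := hx.1 0 0 (Nat.pos_of_ne_zero h2)
    exact absurd hm (Nat.not_lt_zero _)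
  have h0C : (0 : ℕ) ∉ C := fun h2 => absurd (h1 0 h2) (by omega)
  obtain ⟨x', hx'⟩ : ∃ x' : ℕ → ℕ, ∀ n, x' n =
      if x n ∈ C then Nat.count (· ∈ C) (x n) + 1 else 0 := ⟨_, fun _ => rfl⟩
  have hx'C : ∀ n, x n ∈ C → x' n = Nat.count (· ∈ C) (x n) + 1 := fun n h => by
    rw [hx', if_pos h]
  have hx'N : ∀ n, x n ∉ C → x' n = 0 := fun n h => by
    rw [hx', if_neg h]
  have hx'0 : x' 0 = 0 := hx'N 0 (by rw [hx0]; exact h0C)
  have hval : ∀ i m, x m = Nat.nth (· ∈ C) i → x' m = i + 1 := by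
    intro i m hm
    rw [hx'C m (by rw [hm]; exact hmem i), hm, hcn]
  refine ⟨x', ⟨fun n i hi => ?_, fun i => ?_⟩, fun m n hmn => ?_, fun n hn => ?_, fun N => ?_⟩
  · have hnC : x n ∈ C := by
      by_contra h2
      rw [hx'N n h2] at hi
      exact absurd hi (Nat.not_lt_zero _)
    rw [hx'C n hnC] at hi
    rcases i with _ | i
    · refine ⟨0, ?_, hx'0⟩
      rcases Nat.eq_zero_or_pos n with h2 | h2
      · rw [h2, hx0] at hnC
        exact absurd hnC h0C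
      · exact h2
    · have h2 : Nat.nth (· ∈ C) i < x n := Nat.nth_lt_of_lt_count (by omega)
      obtain ⟨m, hm, hm'⟩ := hx.1 n _ h2
      exact ⟨m, hm, hval i m hm'⟩
  · rcases i with _ | i
    · exact ⟨0, hx'0⟩
    · obtain ⟨n, hn⟩ := hx.2 (Nat.nth (· ∈ C) i)
      exact ⟨n, hval i n hn⟩
  · rw [hx', hx', hmn]
  · by_contra h2
    exact hn (hx'N n h2)
  · obtain ⟨M, hM, hM'⟩ := hC ((N + 1) * (N + 1))
    obtain ⟨k, hk⟩ : ∃ k, k = (C ∩ Set.Iio M).ncard := ⟨_, rfl⟩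
    rw [← hk] at hM'
    have h2 : N + 1 ≤ k := by
      by_contra h3
      have h4 : k ≤ N := by omega
      have h5 := Nat.mul_le_mul h4 h4
      have h6 : N * N < (N + 1) * (N + 1) := by nlinarith
      omega
    have h3 : Nat.nth (· ∈ C) (k - 1) < M := by
      refine Nat.nth_lt_of_lt_count ?_
      rw [← hcnt, ← hk]
      omega
    obtain ⟨p, hp, hp'⟩ := hb (Nat.nth (· ∈ C) (k - 1))
    refine ⟨k, by omega, p, hp.trans (hG (by omega)), ?_⟩
    rw [hval (k - 1) p hp']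
    omega

end Pool.Agent.DK
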