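import Pool.Agent.H.MP_b2838e_lc.K.Dns

/-!
# Module Se: a cohesive set which is dense infinitely often

Proof. `D 0 = {i | 1 ≤ i}`, `Q 0 = 2` (`Dn (D 0) 2`), and by `dn_split` `D (n + 1) ⊆ D n` with
`F n` constant on `D (n + 1)` and `Dn (D n) (Q n)` (recursion on a sigma type or subtype). Choose
`a 0 = 0` and `a (n + 1) > a n` with `M = a (n + 1) ≤ Q n * (D n ∩ [0, M)).ncard` and
`M ≥ n`, `M ≥ 4 * (Q n + 1) ^ 2 * (a n + 1) ^ 2`. Put `C = {i | ∃ n, a n ≤ i ∧ i < a (n + 1) ∧ i ∈ D n}`.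
Then `(D n ∩ [0, M)).ncard ≤ (C ∩ [0, M)).ncard + a n`, so with `r = (C ∩ [0, M)).ncard` we have
`M ≤ Q n * (r + a n)`, and `M ≤ r * r` since otherwise `r * r < M`,
`M * M ≤ Q n ^ 2 * (r + a n) ^ 2 ≤ 2 * Q n ^ 2 * (r * r + a n ^ 2) `, hence ... (any estimate; if the
choice of `M` is awkward take a larger lower bound). For `i ∈ C` with `i ≥ a (n + 1)` we have
`i ∈ D m` with `m ≥ n + 1`, so `i ∈ D (n + 1)`.
-/

namespace Pool.Agent.DK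

private theorem Se_base : Dn {i : ℕ | 1 ≤ i} 2 := by
  intro N
  refine ⟨max N 2, le_max_left _ _, ?_⟩
  have h1 : ({i : ℕ | 1 ≤ i} ∩ Set.Iio (max N 2)) = ((Finset.Ico 1 (max N 2) : Finset ℕ) : Set ℕ) := by
    ext x
    simp only [Set.mem_inter_iff, Set.mem_ofPred_eq, Set.mem_Iio, Finset.coe_Ico, Set.mem_Ico]
  rw [h1, Set.ncard_coe_finset, Nat.card_Ico]
  have := le_max_right N 2
  omega

private theorem Se_arith {M Q r a : ℕ} (h : M ≤ Q * (r + a))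
    (hM : 1 + 2 * Q ^ 2 + 2 * Q ^ 2 * a ^ 2 ≤ M) : M ≤ r * r := by
  by_contra hcon
  push Not at hcon
  have h1 : M * M ≤ (Q * (r + a)) * (Q * (r + a)) := Nat.mul_le_mul h h
  have h2 : (r + a) * (r + a) ≤ 2 * (r * r) + 2 * a ^ 2 := by
    zify
    nlinarith [sq_nonneg ((r : ℤ) - a)]
  have h3 : (Q * (r + a)) * (Q * (r + a)) ≤ Q ^ 2 * (2 * M + 2 * a ^ 2) := by
    calc (Q * (r + a)) * (Q * (r + a)) = Q ^ 2 * ((r + a) * (r + a)) := by ring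
      _ ≤ Q ^ 2 * (2 * M + 2 * a ^ 2) := by
          apply Nat.mul_le_mul_left
          omega
  have h4 : (1 + 2 * Q ^ 2 + 2 * Q ^ 2 * a ^ 2) * M ≤ M * M := Nat.mul_le_mul_right M hM
  have h5 : 1 ≤ M := by omega
  have h6 : 2 * Q ^ 2 * a ^ 2 * 1 ≤ 2 * Q ^ 2 * a ^ 2 * M := Nat.mul_le_mul_left _ h5
  nlinarith

theorem sel (l : ℕ → ℕ) (F : ∀ n, ℕ → Fin (l n)) :
    ∃ C : Set ℕ, (∀ i ∈ C, 1 ≤ i) ∧
      (∀ N, ∃ M ≥ N, M ≤ (C ∩ Set.Iio M).ncard * (C ∩ Set.Iio M).ncard) ∧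
      ∀ n, ∃ s, ∃ j, ∀ i ∈ C, s ≤ i → F n i = j := by
  classical
  have hstep : ∀ (n : ℕ) (p : {p : Set ℕ × ℕ // Dn p.1 p.2}),
      ∃ p' : {p : Set ℕ × ℕ // Dn p.1 p.2}, p'.1.1 ⊆ p.1.1 ∧ ∃ j, ∀ i ∈ p'.1.1, F n i = j := by
    rintro n ⟨⟨D, q⟩, hD⟩
    obtain ⟨j, hj⟩ := dn_split hD (F n)
    exact ⟨⟨⟨_, _⟩, hj⟩, fun i hi => hi.1, j, fun i hi => hi.2⟩
  choose st hst1 hst2 using hstep
  let P : ℕ → {p : Set ℕ × ℕ // Dn p.1 p.2} := fun n =>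
    Nat.rec ⟨⟨{i : ℕ | 1 ≤ i}, 2⟩, Se_base⟩ (fun n p => st n p) n
  have hP0 : (P 0).1.1 = {i : ℕ | 1 ≤ i} := rfl
  have hPs : ∀ n, P (n + 1) = st n (P n) := fun n => rfl
  have hanti : Antitone fun n => (P n).1.1 := by
    apply antitone_nat_of_succ_le
    intro n
    exact hst1 n (P n)
  have hMex : ∀ (n x : ℕ), ∃ M, x + n + (1 + 2 * (P n).1.2 ^ 2 + 2 * (P n).1.2 ^ 2 * x ^ 2) ≤ M ∧
      M ≤ (P n).1.2 * ((P n).1.1 ∩ Set.Iio M).ncard := by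
    intro n x
    obtain ⟨M, h1, h2⟩ := (P n).2 (x + n + (1 + 2 * (P n).1.2 ^ 2 + 2 * (P n).1.2 ^ 2 * x ^ 2))
    exact ⟨M, h1, h2⟩
  choose g hg1 hg2 using hMex
  let a : ℕ → ℕ := fun n => Nat.rec 0 (fun n x => g n x) n
  have has : ∀ n, a (n + 1) = g n (a n) := fun n => rfl
  have hg1' : ∀ n, a n + n + (1 + 2 * (P n).1.2 ^ 2 + 2 * (P n).1.2 ^ 2 * a n ^ 2) ≤ a (n + 1) :=
    fun n => hg1 n (a n)
  have hg2' : ∀ n, a (n + 1) ≤ (P n).1.2 * ((P n).1.1 ∩ Set.Iio (a (n + 1))).ncard :=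
    fun n => hg2 n (a n)
  have hmono : StrictMono a := by
    apply strictMono_nat_of_lt_succ
    intro n
    have := hg1' n
    omega
  refine ⟨{i | ∃ n, a n ≤ i ∧ i < a (n + 1) ∧ i ∈ (P n).1.1}, ?_, ?_, ?_⟩
  · rintro i ⟨n, -, -, hi⟩
    have h0 : i ∈ (P 0).1.1 := hanti (Nat.zero_le n) hi
    rw [hP0] at h0
    exact h0
  · intro N
    refine ⟨a (N + 1), ?_, ?_⟩
    · have := hg1' N
      omega
    · set C : Set ℕ := {i | ∃ n, a n ≤ i ∧ i < a (n + 1) ∧ i ∈ (P n).1.1} with hC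
      have hfin : (C ∩ Set.Iio (a (N + 1))).Finite := (Set.finite_Iio _).inter_of_right _
      have hsub : (P N).1.1 ∩ Set.Iio (a (N + 1)) ⊆ (C ∩ Set.Iio (a (N + 1))) ∪ Set.Iio (a N) := by
        rintro i ⟨hi1, hi2⟩
        rcases lt_or_ge i (a N) with hia | hia
        · exact Or.inr hia
        · exact Or.inl ⟨⟨N, hia, hi2, hi1⟩, hi2⟩
      have hcard : ((P N).1.1 ∩ Set.Iio (a (N + 1))).ncard ≤
          (C ∩ Set.Iio (a (N + 1))).ncard + a N := by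
        refine (Set.ncard_le_ncard hsub (hfin.union (Set.finite_Iio _))).trans
          ((Set.ncard_union_le _ _).trans ?_)
        have : (Set.Iio (a N)).ncard = a N := by
          rw [← Finset.coe_Iio, Set.ncard_coe_finset, Nat.card_Iio]
        rw [this]
      refine Se_arith (Q := (P N).1.2) (a := a N) ((hg2' N).trans (Nat.mul_le_mul_left _ hcard)) ?_
      have := hg1' N
      omega
  · intro n
    obtain ⟨j, hj⟩ := hst2 n (P n)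
    refine ⟨a (n + 1), j, ?_⟩
    rintro i ⟨m, -, hm2, hm3⟩ hi
    have h1 : a (n + 1) < a (m + 1) := lt_of_le_of_lt hi hm2
    have h2 : n + 1 ≤ m := Nat.lt_succ_iff.1 (hmono.lt_iff_lt.1 h1)
    exact hj i (hanti h2 hm3)

end Pool.Agent.DK
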