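import Pool.Agent.H.MP_b2838e_lc.K.Fu
import Pool.Agent.H.MP_b2838e_lc.K.Se
import Pool.Agent.H.MP_b2838e_lc.K.Mg
import Pool.Agent.H.MP_b2838e_lc.K.Cp
import Pool.Agent.H.MP_b2838e_lc.C.RSg
import Pool.Agent.H.MP_b2838e_lc.C.VFin

/-!
# Module Fi: assembly
-/

namespace Pool.Agent.DK

open Pool.Agent.DR Pool.Agent.DB

open Classical in
/-- The partition whose second piece is the piece `i` of `x`. -/
private noncomputable def Fi_y (x : ℕ → ℕ) (i : ℕ) : ℕ → ℕ := fun s => if x s = i then 1 else 0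

private theorem Fi_zero {x : ℕ → ℕ} (h : ∀ n, ∀ i < x n, ∃ m < n, x m = i) : x 0 = 0 := by
  by_contra hne
  obtain ⟨m, hm, -⟩ := h 0 0 (Nat.pos_of_ne_zero hne)
  exact Nat.not_lt_zero m hm

private theorem Fi_kp {x : ℕ → ℕ} (hx : InfPart x) {i : ℕ} (hi : 1 ≤ i) : KPart 2 (Fi_y x i) := by
  have h0 : x 0 = 0 := Fi_zero hx.1
  refine ⟨fun n a ha => ?_, fun n => ?_, fun a ha => ?_⟩
  · have h1 : x n = i ∧ a = 0 := by
      by_cases h : x n = i
      · refine ⟨h, ?_⟩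
        have : Fi_y x i n = 1 := if_pos h
        omega
      · have : Fi_y x i n = 0 := if_neg h
        omega
    obtain ⟨m, hm, hm'⟩ := hx.1 n 0 (by omega)
    refine ⟨m, hm, ?_⟩
    rw [h1.2]
    exact if_neg (by omega)
  · by_cases h : x n = i
    · have : Fi_y x i n = 1 := if_pos h
      omega
    · have : Fi_y x i n = 0 := if_neg h
      omega
  · rcases (by omega : a = 0 ∨ a = 1) with rfl | rfl
    · exact ⟨0, if_neg (by omega)⟩
    · obtain ⟨n, hn⟩ := hx.2 i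
      exact ⟨n, if_pos hn⟩

private theorem Fi_co (x : ℕ → ℕ) (i : ℕ) : Coarser (Fi_y x i) x := by
  intro a b hab
  unfold Fi_y
  rw [hab]

theorem coh : ∃ g : ℕ → ℕ, Computable g ∧ ∀ (l : ℕ → ℕ) (c : ∀ n, (ℕ → ℕ) → Fin (l n)),
    (∀ n, Bor 2 (c n)) → ∃ x, InfPart x ∧ (∀ N, ∃ i ≥ N, ∃ p ≤ g i, x p = i) ∧
      ∀ n, ∃ t j, ∀ y, KPart 2 y → Coarser y x → (∀ s ≤ t, y s = 0) → c n y = j := by
  classical
  obtain ⟨g, hgc, hg⟩ := Pool.Agent.DC.reductionV
  obtain ⟨h, hm, hgh, hi, hG, hc⟩ := comp_bound hgc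
  have hR0 : Red g := fun l c hc => hg 2 l c (Pool.Agent.DC.cls_of_bor hc)
  have hR : Red h := red_mono hR0 hgh
  refine ⟨fun i => h^[i * i] (i * i), hc, fun l c hbor => ?_⟩
  obtain ⟨x, hx, hb, hred⟩ := fus hR hm hi l c hbor
  obtain ⟨C, hC1, hC2, hC3⟩ := sel l (fun n i => c n (Fi_y x i))
  obtain ⟨x', hx', hco, hx'C, hbd⟩ := merge hG x hx hb C hC1 hC2
  refine ⟨x', hx', hbd, fun n => ?_⟩
  obtain ⟨t₀, ht₀⟩ := hred n
  obtain ⟨s, j, hj⟩ := hC3 n
  refine ⟨max t₀ (h^[s] s), j, fun y hy hyx hy0 => ?_⟩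
  have hyx2 : Coarser y x := fun a b hab => hyx a b (hco a b hab)
  have hex : ∃ t, y t = 1 := hy.2.2 1 (by omega)
  obtain ⟨t, ht⟩ : ∃ t, t = Nat.find hex := ⟨_, rfl⟩
  have ht1 : y t = 1 := by
    rw [ht]
    exact Nat.find_spec hex
  have ht2 : ∀ m < t, y m = 0 := by
    intro m hm'
    have h1 : ¬ y m = 1 := Nat.find_min hex (by rw [← ht]; exact hm')
    have h2 := hy.2.1 m
    omega
  have hstart : ∀ m, x m = x t → t ≤ m := by
    intro m hm'
    by_contra hlt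
    have h1 := ht2 m (not_le.1 hlt)
    have h2 := hyx2 m t hm'
    omega
  have hgt : max t₀ (h^[s] s) < t := by
    by_contra hle
    have h1 := hy0 t (not_lt.1 hle)
    omega
  have hxt : x t ∈ C := by
    refine hx'C t fun h0 => ?_
    have h1 : x' 0 = 0 := Fi_zero hx'.1
    have h2 := hyx t 0 (h0.trans h1.symm)
    have h3 : y 0 = 0 := hy0 0 (Nat.zero_le _)
    omega
  have hst : s ≤ x t := by
    by_contra hlt
    obtain ⟨p, hp, hp'⟩ := hb (x t)
    have h1 := hstart p hp'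
    have h2 : h^[x t] (x t) ≤ h^[s] s := hG (not_le.1 hlt).le
    have h3 : h^[s] s ≤ max t₀ (h^[s] s) := le_max_right _ _
    omega
  rw [← hj (x t) hxt hst]
  have hpos : 1 ≤ x t := hC1 _ hxt
  have hz : ∀ m < t, Fi_y x (x t) m = 0 := by
    intro m hm'
    refine if_neg fun he => ?_
    have h1 := hstart m he
    omega
  have ht3 : t₀ ≤ max t₀ (h^[s] s) := le_max_left _ _
  refine ht₀ y (Fi_y x (x t)) t hy (Fi_kp hx hpos) hyx2 (Fi_co x _) (fun a ha => ?_)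
    (fun a ha => ?_) ⟨t, le_refl t, ht1⟩
  · exact ⟨hy0 a (by omega), hz a (by omega)⟩
  · rcases lt_or_eq_of_le ha with h1 | h1
    · rw [ht2 a h1, hz a h1]
    · rw [h1, ht1]
      exact (if_pos rfl).symm

end Pool.Agent.DK
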