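import Pool.Agent.H.MP_b2838e_lc.K.FuK
import Pool.Agent.H.MP_b2838e_lc.K.Cp
import Pool.Agent.H.MP_b2838e_lc.C.RSg
import Pool.Agent.H.MP_b2838e_lc.C.VFin

/-!
# Module FiK: the reduction for countably many Borel colourings
-/

namespace Pool.Agent.DK

open Pool.Agent.DR Pool.Agent.DB

theorem reductionSeq : ∃ g : ℕ → ℕ, Computable g ∧ ∀ (k l : ℕ → ℕ)
    (c : (n : ℕ) → (ℕ → ℕ) → Fin (l n)), (∀ n, Bor (k n) (c n)) →
    ∃ x, InfPart x ∧ (∀ i, ∃ m ≤ g i, x m = i) ∧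
      ∀ n, ∃ p, ∀ y z t, KPart (k n) y → KPart (k n) z → Coarser y x → Coarser z x →
        (∀ m ≤ p, y m = 0) → (∀ m ≤ t, y m = z m) → (∀ i < k n, ∃ m ≤ t, y m = i) →
          c n y = c n z := by
  obtain ⟨g, hgc, hg⟩ := Pool.Agent.DC.reductionV
  obtain ⟨h, hm, hgh, hi, hG, hc⟩ := comp_bound hgc
  have hR : RedK h := by
    intro k l c hc
    obtain ⟨x, hx, ⟨i₀, h1⟩, h2⟩ := hg k l c (Pool.Agent.DC.cls_of_bor hc)
    refine ⟨x, hx, ⟨i₀, fun i hi' => ?_⟩, h2⟩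
    obtain ⟨n, hn, hn'⟩ := h1 i hi'
    exact ⟨n, hn.trans (hgh i), hn'⟩
  refine ⟨fun i => h^[i * i] (i * i), hc, fun k l c hbor => ?_⟩
  obtain ⟨x, hx, hb, hred⟩ := fusK hR hm hi k l c hbor
  refine ⟨x, hx, fun i => ?_, fun n => ?_⟩
  · obtain ⟨m, h1, h2⟩ := hb i
    exact ⟨m, h1.trans (hG (Nat.le_mul_self i)), h2⟩
  · obtain ⟨t₀, ht₀⟩ := hred n
    refine ⟨t₀, fun y z t hy hz hyx hzx h0 heq hall => ?_⟩
    rcases Nat.lt_or_ge 1 (k n) with hk | hk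
    · obtain ⟨s, hs, hs1⟩ := hall 1 hk
      have h1 : t₀ < s := by
        by_contra hle
        have h2 := h0 s (not_lt.1 hle)
        omega
      refine ht₀ y z t hy hz hyx hzx (fun a ha => ⟨h0 a ha, ?_⟩) heq hall
      rw [← heq a (by omega)]
      exact h0 a ha
    · have h1 : y = z := by
        funext a
        have h2 := hy.2.1 a
        have h3 := hz.2.1 a
        omega
      rw [h1]

end Pool.Agent.DK
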