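import Pool.Agent.H.MP_b2838e_lc.K.St

/-!
# Module Fu: fusion

Proof. `X 0 = id`, `M n = max (m₀ of step for c n and X n) (n + 1)`, `X (n + 1)` the result of `step`
for `c n`, `X n` and `m = M n` (recursion on the subtype of the `x` with `InfPart x`; choose functions
from `step` first). Bound, by induction on `n`: `∀ i, ∃ p ≤ g^[n] i, X n p = i` (for `i < M n` the
same `p`, as `X (n + 1) p = X n p`; for `i ≥ M n` take `p ≤ g i` from `step` and `q ≤ g^[n] p` with
`X n q = p`; `g^[n]` is monotone; `i ≤ g i`). If `X n s < n + 1` then `X (n + 1) s = X n s`; as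
`X n s ≤ s` (by `InfPart`: numbering by least elements) `X n s` is constant for `n ≥ s`. Let
`x s = X s s`, so `x s = X n s` for all `n ≥ s`. Bound of `x`: `X i p = i` with `p ≤ g^[i] i`, and
`X n p = i` for all `n ≥ i` (as `i < n + 1`), so `x p = i`. `InfPart x` from `InfPart (X n)` and the
bound. `x` is coarser than `X n` for each `n`: for `N ≥ n`, `X N` is coarser than `X n`. So the last
clause follows from that of `step` for `X (n + 1)`.
-/

namespace Pool.Agent.DK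

open Pool.Agent.DR Pool.Agent.DB

private theorem Fu_le {x : ℕ → ℕ} (hx : InfPart x) (s : ℕ) : x s ≤ s := by
  induction s using Nat.strong_induction_on with
  | _ s ih =>
    by_contra h
    push Not at h
    obtain ⟨m, hm, he⟩ := hx.1 s (x s - 1) (by omega)
    have h1 := ih m hm
    omega

theorem fus {g : ℕ → ℕ} (hg : Red g) (hm : Monotone g) (hi : ∀ i, i ≤ g i) (l : ℕ → ℕ)
    (c : ∀ n, (ℕ → ℕ) → Fin (l n)) (hc : ∀ n, Bor 2 (c n)) :
    ∃ x, InfPart x ∧ (∀ i, ∃ p ≤ g^[i] i, x p = i) ∧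
      ∀ n, ∃ t₀, ∀ y y' t, KPart 2 y → KPart 2 y' → Coarser y x → Coarser y' x →
        (∀ s ≤ t₀, y s = 0 ∧ y' s = 0) → (∀ s ≤ t, y s = y' s) → (∃ s ≤ t, y s = 1) →
          c n y = c n y' := by
  have key : ∀ (n : ℕ) (x : {x : ℕ → ℕ // InfPart x}), ∃ (m : ℕ) (x' : {x : ℕ → ℕ // InfPart x}),
      n + 1 ≤ m ∧ Coarser x'.1 x.1 ∧ (∀ s, x.1 s < m → x'.1 s = x.1 s) ∧
      (∀ i ≥ m, ∃ p ≤ g i, ∀ s, x.1 s = p → x'.1 s = i) ∧
      ∃ t₀, ∀ y y' t, KPart 2 y → KPart 2 y' → Coarser y x'.1 → Coarser y' x'.1 →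
        (∀ s ≤ t₀, y s = 0 ∧ y' s = 0) → (∀ s ≤ t, y s = y' s) → (∃ s ≤ t, y s = 1) →
          c n y = c n y' := by
    intro n x
    obtain ⟨m₀, h⟩ := step hg hm (c n) (hc n) x.1 x.2
    obtain ⟨x', h1, h2, h3, h4, h5⟩ := h (max m₀ (n + 1)) (le_max_left _ _)
    exact ⟨max m₀ (n + 1), ⟨x', h1⟩, le_max_right _ _, h2, h3, h4, h5⟩
  choose M N h1 h2 h3 h4 h5 using key
  obtain ⟨X, hX0, hXs⟩ : ∃ X : ℕ → {x : ℕ → ℕ // InfPart x}, (∀ s, (X 0).1 s = s) ∧
      ∀ n, X (n + 1) = N n (X n) :=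
    ⟨fun n => Nat.rec ⟨fun n => n, ⟨fun n i hi => ⟨i, hi, rfl⟩, fun i => ⟨i, rfl⟩⟩⟩
      (fun n x => N n x) n, fun _ => rfl, fun _ => rfl⟩
  have hle : ∀ n s, (X n).1 s ≤ s := fun n s => Fu_le (X n).2 s
  have hst : ∀ n s, (X n).1 s < n + 1 → ∀ K, n ≤ K → (X K).1 s = (X n).1 s := by
    intro n s hs K hK
    induction K, hK using Nat.le_induction with
    | base => rfl
    | succ K hK ih =>
      rw [hXs, h3 K (X K) s ?_, ih]
      have e1 := h1 K (X K)
      rw [ih]
      omega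
  have hx : ∀ s K, s ≤ K → (X K).1 s = (X s).1 s := fun s K hK =>
    hst s s (Nat.lt_succ_of_le (hle s s)) K hK
  have hbd : ∀ n i, ∃ p ≤ g^[n] i, (X n).1 p = i := by
    intro n
    induction n with
    | zero => exact fun i => ⟨i, le_rfl, hX0 i⟩
    | succ n ih =>
      intro i
      rcases Nat.lt_or_ge i (M n (X n)) with h | h
      · obtain ⟨p, hp, hpi⟩ := ih i
        refine ⟨p, ?_, ?_⟩
        · rw [Function.iterate_succ_apply']
          exact hp.trans (hi _)
        · rw [hXs, h3 n (X n) p (by rw [hpi]; exact h), hpi]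
      · obtain ⟨p, hp, hpi⟩ := h4 n (X n) i h
        obtain ⟨q, hq, hqp⟩ := ih p
        refine ⟨q, ?_, ?_⟩
        · rw [Function.iterate_succ_apply]
          exact hq.trans (hm.iterate n hp)
        · rw [hXs]
          exact hpi q hqp
  have hbx : ∀ i, ∃ p ≤ g^[i] i, (X p).1 p = i := by
    intro i
    obtain ⟨p, hp, hpi⟩ := hbd i i
    have e1 : i ≤ p := by
      have := hle i p
      omega
    refine ⟨p, hp, ?_⟩
    rw [hst i p (by omega) p e1, hpi]
  have hco : ∀ n K, n ≤ K → Coarser (X K).1 (X n).1 := by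
    intro n K hK
    induction K, hK using Nat.le_induction with
    | base => exact fun _ _ h => h
    | succ K hK ih =>
      intro a b hab
      rw [hXs]
      exact h2 K (X K) a b (ih a b hab)
  have hcx : ∀ n, Coarser (fun s => (X s).1 s) (X n).1 := by
    intro n a b hab
    show (X a).1 a = (X b).1 b
    rw [← hx a (n + a + b) (by omega), ← hx b (n + a + b) (by omega)]
    exact hco n (n + a + b) (by omega) a b hab
  refine ⟨fun s => (X s).1 s, ⟨fun n i hi => ?_, fun i => ?_⟩, hbx, fun n => ?_⟩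
  · obtain ⟨m, hm', hmi⟩ := (X n).2.1 n i hi
    exact ⟨m, hm', by rw [← hmi, hx m n hm'.le]⟩
  · obtain ⟨p, -, hp⟩ := hbx i
    exact ⟨p, hp⟩
  · obtain ⟨t₀, ht⟩ := h5 n (X n)
    refine ⟨t₀, fun y y' t hy hy' hyx hyx' => ht y y' t hy hy' (fun a b hab => ?_)
      (fun a b hab => ?_)⟩
    · exact hyx a b (hcx (n + 1) a b (by rw [hXs]; exact hab))
    · exact hyx' a b (hcx (n + 1) a b (by rw [hXs]; exact hab))

end Pool.Agent.DK
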