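import Pool.Agent.H.MP_b2838e_lc.K.Defs

/-!
# Module Sp: the first `m` numbers are made pieces of their own

Proof. Let `r` be the number of pieces of `z` which begin below `m`: a number with
`∀ p < m, z p < r`, `∀ q < r, ∃ p < m, z p = q` and `r ≤ m` (induction on `m`, with `z m ≤ r` by
`hz.1`). As `z n = i₀` for some `n ≤ g i₀ < m`, `i₀ < r`. Put `z' p = p` for `p < m`, and for `p ≥ m`
put `z' p = 0` if `z p < r` and `z' p = z p - r + m` otherwise. For `m ≤ i` the piece `i` of `z'` is the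
piece `i - m + r ≥ i₀` of `z` (all its elements are `≥ m`), which has an element
`≤ g (i - m + r) ≤ g i`. If `w` is coarser than `z'` and vanishes on `[0, m)`: let `z a = z b`; if
`z a < r` then `w a = 0 = w b` (for `a < m` by hypothesis; for `a ≥ m` we have `z' a = 0 = z' 0` and
`0 < m`), otherwise `a, b ≥ m` and `z' a = z' b`.
-/

namespace Pool.Agent.DK

open Pool.Agent.DR Pool.Agent.DB

private theorem Sp_r (z : ℕ → ℕ) (hz : InfPart z) (m : ℕ) :
    ∃ r, (∀ p < m, z p < r) ∧ (∀ q < r, ∃ p < m, z p = q) ∧ r ≤ m := by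
  induction m with
  | zero =>
    exact ⟨0, fun p hp => absurd hp (Nat.not_lt_zero p),
      fun q hq => absurd hq (Nat.not_lt_zero q), le_refl 0⟩
  | succ m ih =>
    obtain ⟨r, h1, h2, h3⟩ := ih
    have h4 : z m ≤ r := by
      by_contra hc
      obtain ⟨p, hp, hpr⟩ := hz.1 m r (by omega)
      have := h1 p hp
      omega
    rcases h4.lt_or_eq with h5 | h5
    · refine ⟨r, fun p hp => ?_, fun q hq => ?_, by omega⟩
      · rcases Nat.lt_succ_iff_lt_or_eq.1 hp with h | h
        · exact h1 p h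
        · rw [h]
          exact h5
      · obtain ⟨p, hp, hpq⟩ := h2 q hq
        exact ⟨p, by omega, hpq⟩
    · refine ⟨r + 1, fun p hp => ?_, fun q hq => ?_, by omega⟩
      · rcases Nat.lt_succ_iff_lt_or_eq.1 hp with h | h
        · have := h1 p h
          omega
        · rw [h]
          omega
      · rcases Nat.lt_succ_iff_lt_or_eq.1 hq with h | h
        · obtain ⟨p, hp, hpq⟩ := h2 q h
          exact ⟨p, by omega, hpq⟩
        · exact ⟨m, by omega, by omega⟩

theorem split {g : ℕ → ℕ} (hm : Monotone g) (z : ℕ → ℕ) (hz : InfPart z) (i₀ : ℕ)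
    (hb : ∀ i ≥ i₀, ∃ n ≤ g i, z n = i) (m : ℕ) (him : g i₀ < m) :
    ∃ z', InfPart z' ∧ (∀ p < m, z' p = p) ∧ (∀ i ≥ m, ∃ n ≤ g i, z' n = i) ∧
      ∀ w : ℕ → ℕ, Coarser w z' → (∀ p < m, w p = 0) → Coarser w z := by
  obtain ⟨r, h1, h2, h3⟩ := Sp_r z hz m
  have h4 : i₀ < r := by
    obtain ⟨n, hn, hni⟩ := hb i₀ (le_refl i₀)
    have := h1 n (by omega)
    omega
  have hm0 : 0 < m := by omega
  obtain ⟨z', hz'⟩ : ∃ z' : ℕ → ℕ, ∀ p, z' p = if p < m then p else
    if z p < r then 0 else z p - r + m := ⟨_, fun p => rfl⟩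
  have e1 : ∀ p, p < m → z' p = p := fun p hp => by rw [hz', if_pos hp]
  have e2 : ∀ p, m ≤ p → z p < r → z' p = 0 := fun p hp hq => by
    rw [hz', if_neg (by omega), if_pos hq]
  have hge : ∀ p, r ≤ z p → m ≤ p := by
    intro p hp
    by_contra hc
    have := h1 p (by omega)
    omega
  have e3 : ∀ p, r ≤ z p → z' p = z p - r + m := fun p hq => by
    have h5 := hge p hq
    rw [hz', if_neg (by omega), if_neg (by omega)]
  refine ⟨z', ⟨?_, ?_⟩, e1, ?_, ?_⟩
  · intro n i hi
    rcases Nat.lt_or_ge n m with hn | hn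
    · rw [e1 n hn] at hi
      exact ⟨i, hi, e1 i (by omega)⟩
    · rcases Nat.lt_or_ge (z n) r with h | h
      · rw [e2 n hn h] at hi
        exact absurd hi (Nat.not_lt_zero i)
      · rw [e3 n h] at hi
        rcases Nat.lt_or_ge i m with hi2 | hi2
        · exact ⟨i, by omega, e1 i hi2⟩
        · obtain ⟨q, hq, hqi⟩ := hz.1 n (i - m + r) (by omega)
          refine ⟨q, hq, ?_⟩
          rw [e3 q (by omega), hqi]
          omega
  · intro i
    rcases Nat.lt_or_ge i m with hi2 | hi2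
    · exact ⟨i, e1 i hi2⟩
    · obtain ⟨q, hqi⟩ := hz.2 (i - m + r)
      refine ⟨q, ?_⟩
      rw [e3 q (by omega), hqi]
      omega
  · intro i hi
    obtain ⟨n, hn, hni⟩ := hb (i - m + r) (by omega)
    refine ⟨n, hn.trans (hm (by omega)), ?_⟩
    rw [e3 n (by omega), hni]
    omega
  · intro w hw h0 a b hab
    have h6 : ∀ a, z a < r → w a = 0 := by
      intro a ha
      rcases Nat.lt_or_ge a m with h | h
      · exact h0 a h
      · rw [hw a 0 (by rw [e2 a h ha, e1 0 hm0])]
        exact h0 0 hm0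
    rcases Nat.lt_or_ge (z a) r with h | h
    · rw [h6 a h, h6 b (by omega)]
    · exact hw a b (by rw [e3 a h, e3 b (by omega), hab])

end Pool.Agent.DK
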