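import Pool.Agent.H.MP_b2838e_lc.K.TrK
import Pool.Agent.H.MP_b2838e_lc.K.Sp

/-!
# Module StK: one step

Proof. Let `z`, `i₀` be from `red_trK` for `c` and `x`; `m₀ = g i₀ + 1`. For `m ≥ m₀` let `z'` be from
`split` and `x' = fun n => z' (x n)`. Let `t₀` be such that all `p < m` are values `x s` with
`s ≤ t₀` (induction on `m`, or a finite maximum of chosen `s p` with `x (s p) = p`). If `y` is in
`(ℕ)^k`, coarser than `x'` and zero on `[0, t₀]`, then `y n = w (x n)` for all `n`, where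
`w p = y (s p)` (`x (s (x n)) = x n`, hence `x' (s (x n)) = x' n`), `w` is coarser than `z'` and zero
on `[0, m)` (for `p < m` there is `s ≤ t₀` with `x s = p`, `y s = 0` and `y (s p) = y s`), so `w` is
coarser than `z` and `y` is coarser than `fun n => z (x n)`.
-/

namespace Pool.Agent.DK

open Pool.Agent.DR Pool.Agent.DB

theorem stepK {g : ℕ → ℕ} (hg : RedK g) (hm : Monotone g) {k l : ℕ} (c : (ℕ → ℕ) → Fin l)
    (hc : Bor k c) (x : ℕ → ℕ) (hx : InfPart x) :
    ∃ m₀, ∀ m ≥ m₀, ∃ x', InfPart x' ∧ Coarser x' x ∧ (∀ n, x n < m → x' n = x n) ∧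
      (∀ i ≥ m, ∃ p ≤ g i, ∀ n, x n = p → x' n = i) ∧
      ∃ t₀, ∀ y y' t, KPart k y → KPart k y' → Coarser y x' → Coarser y' x' →
        (∀ s ≤ t₀, y s = 0 ∧ y' s = 0) → (∀ s ≤ t, y s = y' s) → (∀ i < k, ∃ s ≤ t, y s = i) →
          c y = c y' := by
  obtain ⟨z, hz, ⟨i₀, hi₀⟩, hred⟩ := red_trK hg c hc x hx
  refine ⟨g i₀ + 1, fun m hmm => ?_⟩
  obtain ⟨z', hz', h1, h2, h3⟩ := split hm z hz i₀ hi₀ m (by omega)
  have hsx : ∀ p, ∃ n, x n = p := hx.2
  choose s hs using hsx
  refine ⟨fun n => z' (x n), ⟨?_, ?_⟩, ?_, ?_, ?_, (Finset.range m).sup s, ?_⟩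
  · intro n i hi
    obtain ⟨p, hp, hpi⟩ := hz'.1 (x n) i hi
    obtain ⟨m', hm', hmp⟩ := hx.1 n p hp
    exact ⟨m', hm', by show z' (x m') = i; rw [hmp, hpi]⟩
  · intro i
    obtain ⟨p, hp⟩ := hz'.2 i
    exact ⟨s p, by show z' (x (s p)) = i; rw [hs, hp]⟩
  · intro a b hab
    show z' (x a) = z' (x b)
    rw [hab]
  · intro n hn
    exact h1 (x n) hn
  · intro i hi
    obtain ⟨p, hp, hpi⟩ := h2 i hi
    exact ⟨p, hp, fun n hn => by show z' (x n) = i; rw [hn, hpi]⟩
  · intro y y' t hy hy' hyx hyx' h0 heq hex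
    have key : ∀ v : ℕ → ℕ, Coarser v (fun n => z' (x n)) →
        (∀ q ≤ (Finset.range m).sup s, v q = 0) → Coarser v (fun n => z (x n)) := by
      intro v hv hv0
      have e1 : ∀ n, v (s (x n)) = v n := by
        intro n
        apply hv
        show z' (x (s (x n))) = z' (x n)
        rw [hs]
      have e2 : Coarser (fun p => v (s p)) z' := by
        intro a b hab
        apply hv
        show z' (x (s a)) = z' (x (s b))
        rw [hs, hs, hab]
      have e3 : Coarser (fun p => v (s p)) z := by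
        apply h3 _ e2
        intro p hp
        exact hv0 (s p) (Finset.le_sup (Finset.mem_range.2 hp))
      intro a b hab
      have e4 := e3 (x a) (x b) hab
      rw [← e1 a, ← e1 b]
      exact e4
    exact hred y y' t hy hy' (key y hyx fun q hq => (h0 q hq).1)
      (key y' hyx' fun q hq => (h0 q hq).2) heq hex

end Pool.Agent.DK
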