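import Pool.Agent.H.MP_b2838e_lc.K.Defs

/-!
# Module Tr: transport of `Red` to the partitions coarser than a given one

Proof. Apply `hg` to the colouring `w ↦ c (fun n => w (x n))` of the partitions into two pieces. It is
Borel: the class of `j` is `{w | KPart 2 w}` intersected with the preimage of
`{y | KPart 2 y ∧ c y = j}` under the continuous map `w ↦ fun n => w (x n)`, since `KPart 2 w` gives
`KPart 2 (fun n => w (x n))` (pieces of `x` are numbered by their least elements: if `i < w (x n)`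
take `p < x n` with `w p = i`, then `m < n` with `x m = p`); and `{w | KPart 2 w}` is measurable: it is
the union of the classes of `c` (finite union), or directly a countable boolean combination of the
conditions `w n = i`. Let `z` be the partition obtained. If `y` in `(ℕ)^2` is coarser than
`fun n => z (x n)` put `w p = y (s p)` with `x (s p) = p` (choose `s`). Then `y = fun n => w (x n)`
(as `x (s (x n)) = x n`), `KPart 2 w` (for `i < w p` we have to find `p' < p` with `w p' = i`: let `n`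
be the least number with `x n = p`; `y n = w p > i`, so there is `m < n` with `y m = i`; `x m ≠ p` by
minimality, and `x m < p`: otherwise `x m > p`, so `p` occurs before `m`, contradiction; `w (x m) = i`),
and `w` is coarser than `z`. If `y` and `y'` agree on `[0, t]` and `1` is a value of `y` there, let
`t₀ ≤ t` with `y t₀ = 1 = y' t₀` and `p₀ = x t₀`: `w` and `w'` agree on `[0, p₀]` since each `p ≤ p₀`
is `x m` with some `m ≤ t₀`; `w p₀ = 1` and `w 0 = 0` (`KPart`).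
-/

namespace Pool.Agent.DK

open Pool.Agent.DR Pool.Agent.DB

private theorem Tr_phi {x : ℕ → ℕ} (hx : InfPart x) {w : ℕ → ℕ} (hw : KPart 2 w) :
    KPart 2 (fun n => w (x n)) := by
  refine ⟨fun n i hi => ?_, fun n => hw.2.1 (x n), fun i hi => ?_⟩
  · obtain ⟨p, hp, hpi⟩ := hw.1 (x n) i hi
    obtain ⟨m, hm, hmp⟩ := hx.1 n p hp
    refine ⟨m, hm, ?_⟩
    show w (x m) = i
    rw [hmp, hpi]
  · obtain ⟨p, hp⟩ := hw.2.2 i hi
    obtain ⟨n, hn⟩ := hx.2 p
    refine ⟨n, ?_⟩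
    show w (x n) = i
    rw [hn, hp]

private theorem Tr_bor {l : ℕ} {c : (ℕ → ℕ) → Fin l} (hc : Bor 2 c) {x : ℕ → ℕ}
    (hx : InfPart x) : Bor 2 (fun w => c (fun n => w (x n))) := by
  intro j
  have h1 : MeasurableSet {w : ℕ → ℕ | KPart 2 w} := by
    have h2 : {w : ℕ → ℕ | KPart 2 w} = ⋃ j, {y : ℕ → ℕ | KPart 2 y ∧ c y = j} := by
      ext w
      simp
    rw [h2]
    exact MeasurableSet.iUnion hc
  have h3 : Measurable (fun (w : ℕ → ℕ) (n : ℕ) => w (x n)) :=
    measurable_pi_lambda _ fun n => measurable_pi_apply (x n)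
  have h4 : {w : ℕ → ℕ | KPart 2 w ∧ c (fun n => w (x n)) = j} = {w : ℕ → ℕ | KPart 2 w} ∩
      (fun (w : ℕ → ℕ) (n : ℕ) => w (x n)) ⁻¹' {y : ℕ → ℕ | KPart 2 y ∧ c y = j} := by
    ext w
    constructor
    · rintro ⟨k1, k2⟩
      exact ⟨k1, Tr_phi hx k1, k2⟩
    · rintro ⟨k1, -, k2⟩
      exact ⟨k1, k2⟩
  rw [h4]
  exact h1.inter (h3 (hc j))

/-- the partition `w` with `y = w ∘ x` -/
private theorem Tr_ex {x : ℕ → ℕ} (hx : InfPart x) (z : ℕ → ℕ) {y : ℕ → ℕ} (hy : KPart 2 y)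
    (hyz : Coarser y (fun n => z (x n))) :
    ∃ w : ℕ → ℕ, KPart 2 w ∧ Coarser w z ∧ ∀ n, w (x n) = y n := by
  have hs : ∀ p, ∃ n, x n = p ∧ ∀ m < n, x m ≠ p := fun p =>
    ⟨Nat.find (hx.2 p), Nat.find_spec (hx.2 p), fun m hm => Nat.find_min (hx.2 p) hm⟩
  choose s hs1 hs2 using hs
  have hwx : ∀ n, y (s (x n)) = y n := by
    intro n
    apply hyz
    show z (x (s (x n))) = z (x n)
    rw [hs1]
  refine ⟨fun p => y (s p), ⟨fun p i hi => ?_, fun p => hy.2.1 (s p), fun i hi => ?_⟩, ?_, hwx⟩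
  · obtain ⟨m, hm, hmi⟩ := hy.1 (s p) i hi
    refine ⟨x m, ?_, ?_⟩
    · rcases lt_trichotomy (x m) p with h | h | h
      · exact h
      · exact absurd h (hs2 p m hm)
      · exfalso
        obtain ⟨m', hm', hp⟩ := hx.1 m p h
        exact hs2 p m' (hm'.trans hm) hp
    · show y (s (x m)) = i
      rw [hwx, hmi]
  · obtain ⟨n, hn⟩ := hy.2.2 i hi
    refine ⟨x n, ?_⟩
    show y (s (x n)) = i
    rw [hwx, hn]
  · intro p q hpq
    show y (s p) = y (s q)
    apply hyz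
    show z (x (s p)) = z (x (s q))
    rw [hs1, hs1, hpq]

theorem red_tr {g : ℕ → ℕ} (hg : Red g) {l : ℕ} (c : (ℕ → ℕ) → Fin l) (hc : Bor 2 c)
    (x : ℕ → ℕ) (hx : InfPart x) :
    ∃ z, InfPart z ∧ (∃ i₀, ∀ i ≥ i₀, ∃ n ≤ g i, z n = i) ∧
      ∀ y y' t, KPart 2 y → KPart 2 y' → Coarser y (fun n => z (x n)) →
        Coarser y' (fun n => z (x n)) → (∀ n ≤ t, y n = y' n) → (∃ n ≤ t, y n = 1) →
          c y = c y' := by
  obtain ⟨z, hz1, hz2, hz3⟩ := hg l (fun w => c (fun n => w (x n))) (Tr_bor hc hx)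
  refine ⟨z, hz1, hz2, ?_⟩
  intro y y' t hy hy' hyz hyz' hag hone
  obtain ⟨w, hw1, hw2, hw3⟩ := Tr_ex hx z hy hyz
  obtain ⟨w', hw1', hw2', hw3'⟩ := Tr_ex hx z hy' hyz'
  obtain ⟨t₀, ht₀, hy1⟩ := hone
  have hagw : ∀ p ≤ x t₀, w p = w' p := by
    intro p hp
    obtain ⟨m, hm, hmp⟩ : ∃ m ≤ t₀, x m = p := by
      rcases hp.lt_or_eq with h | h
      · obtain ⟨m, hm, hmp⟩ := hx.1 t₀ p h
        exact ⟨m, hm.le, hmp⟩
      · exact ⟨t₀, le_rfl, h.symm⟩
    rw [← hmp, hw3, hw3']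
    exact hag m (hm.trans ht₀)
  have hval : ∀ i < 2, ∃ n ≤ x t₀, w n = i := by
    intro i hi
    have h2 : i = 0 ∨ i = 1 := by omega
    rcases h2 with rfl | rfl
    · refine ⟨0, Nat.zero_le _, ?_⟩
      by_contra h0
      obtain ⟨m, hm, -⟩ := hw1.1 0 0 (Nat.pos_of_ne_zero h0)
      exact absurd hm (Nat.not_lt_zero _)
    · exact ⟨x t₀, le_rfl, by rw [hw3, hy1]⟩
  have h := hz3 w w' (x t₀) hw1 hw1' hw2 hw2' hagw hval
  have e1 : (fun n => w (x n)) = y := funext hw3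
  have e2 : (fun n => w' (x n)) = y' := funext hw3'
  simp only [e1, e2] at h
  exact h

end Pool.Agent.DK
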