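import Pool.Agent.H.MP_b2838e_lc.K.DefK

/-!
# Module TrK: transport of `RedK` to the partitions coarser than a given one

Proof. As in Tr. At the end: if `y` and `y'` agree on `[0, t]` and all `i < k` are values of `y` there,
let `T` be the maximum of `x` on `[0, t]`: each `p ≤ T` is `x m` with some `m ≤ t`, hence `w` and `w'`
agree on `[0, T]` and all `i < k` are values of `w` there.
-/

namespace Pool.Agent.DK

open Pool.Agent.DR Pool.Agent.DB

private theorem TrK_phi {k : ℕ} {x : ℕ → ℕ} (hx : InfPart x) {w : ℕ → ℕ} (hw : KPart k w) :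
    KPart k (fun n => w (x n)) := by
  refine ⟨fun n i hi => ?_, fun n => hw.2.1 (x n), fun i hi => ?_⟩
  · obtain ⟨p, hp, hpi⟩ := hw.1 (x n) i hi
    obtain ⟨m, hm, hmp⟩ := hx.1 n p hp
    refine ⟨m, hm, ?_⟩
    show w (x m) = i
    rw [hmp, hpi]
  · obtain ⟨p, hp⟩ := hw.2.2 i hi
    obtain ⟨n, hn⟩ := hx.2 p
    refine ⟨n, ?_⟩
    show w (x n) = i
    rw [hn, hp]

private theorem TrK_bor {k l : ℕ} {c : (ℕ → ℕ) → Fin l} (hc : Bor k c) {x : ℕ → ℕ}
    (hx : InfPart x) : Bor k (fun w => c (fun n => w (x n))) := by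
  intro j
  have h1 : MeasurableSet {w : ℕ → ℕ | KPart k w} := by
    have h2 : {w : ℕ → ℕ | KPart k w} = ⋃ j, {y : ℕ → ℕ | KPart k y ∧ c y = j} := by
      ext w
      simp
    rw [h2]
    exact MeasurableSet.iUnion hc
  have h3 : Measurable (fun (w : ℕ → ℕ) (n : ℕ) => w (x n)) :=
    measurable_pi_lambda _ fun n => measurable_pi_apply (x n)
  have h4 : {w : ℕ → ℕ | KPart k w ∧ c (fun n => w (x n)) = j} = {w : ℕ → ℕ | KPart k w} ∩
      (fun (w : ℕ → ℕ) (n : ℕ) => w (x n)) ⁻¹' {y : ℕ → ℕ | KPart k y ∧ c y = j} := by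
    ext w
    constructor
    · rintro ⟨k1, k2⟩
      exact ⟨k1, TrK_phi hx k1, k2⟩
    · rintro ⟨k1, -, k2⟩
      exact ⟨k1, k2⟩
  rw [h4]
  exact h1.inter (h3 (hc j))

/-- the partition `w` with `y = w ∘ x` -/
private theorem TrK_ex {k : ℕ} {x : ℕ → ℕ} (hx : InfPart x) (z : ℕ → ℕ) {y : ℕ → ℕ} (hy : KPart k y)
    (hyz : Coarser y (fun n => z (x n))) :
    ∃ w : ℕ → ℕ, KPart k w ∧ Coarser w z ∧ ∀ n, w (x n) = y n := by
  have hs : ∀ p, ∃ n, x n = p ∧ ∀ m < n, x m ≠ p := fun p =>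
    ⟨Nat.find (hx.2 p), Nat.find_spec (hx.2 p), fun m hm => Nat.find_min (hx.2 p) hm⟩
  choose s hs1 hs2 using hs
  have hwx : ∀ n, y (s (x n)) = y n := by
    intro n
    apply hyz
    show z (x (s (x n))) = z (x n)
    rw [hs1]
  refine ⟨fun p => y (s p), ⟨fun p i hi => ?_, fun p => hy.2.1 (s p), fun i hi => ?_⟩, ?_, hwx⟩
  · obtain ⟨m, hm, hmi⟩ := hy.1 (s p) i hi
    refine ⟨x m, ?_, ?_⟩
    · rcases lt_trichotomy (x m) p with h | h | h
      · exact h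
      · exact absurd h (hs2 p m hm)
      · exfalso
        obtain ⟨m', hm', hp⟩ := hx.1 m p h
        exact hs2 p m' (hm'.trans hm) hp
    · show y (s (x m)) = i
      rw [hwx, hmi]
  · obtain ⟨n, hn⟩ := hy.2.2 i hi
    refine ⟨x n, ?_⟩
    show y (s (x n)) = i
    rw [hwx, hn]
  · intro p q hpq
    show y (s p) = y (s q)
    apply hyz
    show z (x (s p)) = z (x (s q))
    rw [hs1, hs1, hpq]

theorem red_trK {g : ℕ → ℕ} (hg : RedK g) {k l : ℕ} (c : (ℕ → ℕ) → Fin l) (hc : Bor k c)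
    (x : ℕ → ℕ) (hx : InfPart x) :
    ∃ z, InfPart z ∧ (∃ i₀, ∀ i ≥ i₀, ∃ n ≤ g i, z n = i) ∧
      ∀ y y' t, KPart k y → KPart k y' → Coarser y (fun n => z (x n)) →
        Coarser y' (fun n => z (x n)) → (∀ n ≤ t, y n = y' n) → (∀ i < k, ∃ n ≤ t, y n = i) →
          c y = c y' := by
  obtain ⟨z, hz1, hz2, hz3⟩ := hg k l (fun w => c (fun n => w (x n))) (TrK_bor hc hx)
  refine ⟨z, hz1, hz2, ?_⟩
  intro y y' t hy hy' hyz hyz' hag hone
  obtain ⟨w, hw1, hw2, hw3⟩ := TrK_ex hx z hy hyz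
  obtain ⟨w', hw1', hw2', hw3'⟩ := TrK_ex hx z hy' hyz'
  obtain ⟨t₀, ht₀, hmax⟩ := Finset.exists_max_image (Finset.range (t + 1)) x
    ⟨0, Finset.mem_range.2 (Nat.succ_pos t)⟩
  have ht₀' : t₀ ≤ t := Nat.lt_succ_iff.1 (Finset.mem_range.1 ht₀)
  have hagw : ∀ p ≤ x t₀, w p = w' p := by
    intro p hp
    obtain ⟨m, hm, hmp⟩ : ∃ m ≤ t₀, x m = p := by
      rcases hp.lt_or_eq with h | h
      · obtain ⟨m, hm, hmp⟩ := hx.1 t₀ p h
        exact ⟨m, hm.le, hmp⟩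
      · exact ⟨t₀, le_rfl, h.symm⟩
    rw [← hmp, hw3, hw3']
    exact hag m (hm.trans ht₀')
  have hval : ∀ i < k, ∃ n ≤ x t₀, w n = i := by
    intro i hi
    obtain ⟨n, hn, hni⟩ := hone i hi
    exact ⟨x n, hmax n (Finset.mem_range.2 (Nat.lt_succ_iff.2 hn)), by rw [hw3, hni]⟩
  have h := hz3 w w' (x t₀) hw1 hw1' hw2 hw2' hagw hval
  have e1 : (fun n => w (x n)) = y := funext hw3
  have e2 : (fun n => w' (x n)) = y' := funext hw3'
  simp only [e1, e2] at h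
  exact h

end Pool.Agent.DK
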